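import Mathlib

/-!
# Practical stabilization entropy can be smaller than stabilization entropy
-/

set_option autoImplicit false

open Filter Topology MeasureTheory Set

namespace Pool.Agent.Results.MP_395e41_an.StrictInequality

section defs

variable {X W : Type*} [NormedAddCommGroup X] [NormedSpace ℝ X] [MeasurableSpace W]

/-- The admissible controls: measurable functions with values in the control range `U` at almost all
times `t ≥ 0`. -/
def Adm (U : Set W) : Set (ℝ → W) := {u | Measurable u ∧ ∀ᵐ t : ℝ, 0 ≤ t → u t ∈ U}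

/-- `x` is the (Carathéodory) solution on `[0,∞)` of `x' = f(x,u)`, `x(0) = x₀`. -/
def IsSol (f : X → W → X) (u : ℝ → W) (x0 : X) (x : ℝ → X) : Prop :=
  ContinuousOn x (Ici 0) ∧ ∀ t : ℝ, 0 ≤ t →
    IntervalIntegrable (fun s => f (x s) (u s)) volume 0 t ∧
      x t = x0 + ∫ s in (0:ℝ)..t, f (x s) (u s)

/-- `φ t x₀ u` is the unique solution of the control system, and it depends continuously on the
initial value. -/
structure IsControlSystem (f : X → W → X) (U : Set W) (φ : ℝ → X → (ℝ → W) → X) : Prop where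
  sol : ∀ u ∈ Adm U, ∀ x0, IsSol f u x0 fun t => φ t x0 u
  unique : ∀ u ∈ Adm U, ∀ x0, ∀ y, IsSol f u x0 y → ∀ t, 0 ≤ t → y t = φ t x0 u
  cont : ∀ u ∈ Adm U, ∀ t, 0 ≤ t → Continuous fun x0 => φ t x0 u

/-- `KL`-functions. -/
structure IsKL (ζ : ℝ → ℝ → ℝ) : Prop where
  cont : ContinuousOn (fun p : ℝ × ℝ => ζ p.1 p.2) (Ici 0 ×ˢ Ici 0)
  zero : ∀ s, 0 ≤ s → ζ 0 s = 0
  incr : ∀ s, 0 ≤ s → StrictMonoOn (fun r => ζ r s) (Ici 0)
  decr : ∀ r, 0 < r → StrictAntiOn (fun s => ζ r s) (Ici 0)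
  lim : ∀ r, 0 ≤ r → Tendsto (fun s => ζ r s) atTop (𝓝 0)

variable (U : Set W) (φ : ℝ → X → (ℝ → W) → X) (ζ : ℝ → ℝ → ℝ) (Γ Λ : Set X)

/-- The sets of controls `S` with `d(φ(t,x₀,u),Λ) ≤ ζ(d(x₀,Λ) + ε, t) + δ` on `[0,τ]`, for some
`u ∈ S` for each `x₀ ∈ Γ`. They are the spanning sets for `δ = 0` and the practically spanning sets
for `δ = ε`. -/
def Spanning (τ ε δ : ℝ) : Set (Set (ℝ → W)) :=
  {S | S ⊆ Adm U ∧ ∀ x0 ∈ Γ, ∃ u ∈ S, ∀ t ∈ Icc 0 τ,
    Metric.infDist (φ t x0 u) Λ ≤ ζ (Metric.infDist x0 Λ + ε) t + δ}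

/-- The minimal cardinality (`⊤` if there is no finite such set). -/
noncomputable def minCard (τ ε δ : ℝ) : ℕ∞ := sInf (Set.encard '' Spanning U φ ζ Γ Λ τ ε δ)

/-- The exponential growth rate `limsup (1/τ) log minCard` as `τ → ∞`. -/
noncomputable def rate (ε δ : ℝ) : EReal :=
  limsup (fun τ : ℝ => ENNReal.log (minCard U φ ζ Γ Λ τ ε δ : ENNReal) / (τ : EReal)) atTop

/-- `h` is the stabilization entropy `lim_{ε → 0} h_s(ε)`. -/
def IsStabilizationEntropy (h : EReal) : Prop :=
  Tendsto (fun ε : ℝ => rate U φ ζ Γ Λ ε 0) (𝓝[>] 0) (𝓝 h)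

/-- `h` is the practical stabilization entropy `lim_{ε → 0} h_ps(ε)`. -/
def IsPracticalEntropy (h : EReal) : Prop :=
  Tendsto (fun ε : ℝ => rate U φ ζ Γ Λ ε ε) (𝓝[>] 0) (𝓝 h)

/-- The system is stabilizable for the given data. -/
def IsStabilizable : Prop :=
  ∀ x0 ∈ Γ, ∃ u ∈ Adm U, ∀ t, 0 ≤ t →
    Metric.infDist (φ t x0 u) Λ ≤ ζ (Metric.infDist x0 Λ) t

end defs

/-! ### The example `x' = x + u` -/

/-- The right-hand side. -/
def ff (x u : ℝ) : ℝ := x + u

/-- The control range. -/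
def UU : Set ℝ := Icc (-1) 1

/-- The flow. -/
noncomputable def ph (t x0 : ℝ) (u : ℝ → ℝ) : ℝ :=
  Real.exp t * (x0 + ∫ s in (0:ℝ)..t, Real.exp (-s) * u s)

/-- The rate function. -/
noncomputable def zt (r t : ℝ) : ℝ := r * Real.exp (-t)

lemma bdd_ii {u : ℝ → ℝ} (hu : u ∈ Adm UU) {g : ℝ → ℝ} (hg : Continuous g) {a b : ℝ} (ha : 0 ≤ a)
    (hb : 0 ≤ b) : IntervalIntegrable (fun s => g s * u s) volume a b := by
  have h1 : IntervalIntegrable g volume a b := hg.intervalIntegrable a b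
  refine IntervalIntegrable.mono_fun h1 ((hg.measurable.mul hu.1).aestronglyMeasurable) ?_
  have h2 : ∀ᵐ s ∂(volume.restrict (uIoc a b)), s ∈ uIoc a b :=
    ae_restrict_mem measurableSet_uIoc
  filter_upwards [ae_restrict_of_ae hu.2, h2] with s hs hs2
  have hs0 : 0 ≤ s := by
    have := hs2.1
    exact (le_min ha hb).trans this.le
  have := hs hs0
  rw [norm_mul]
  have hle : ‖u s‖ ≤ 1 := by rw [Real.norm_eq_abs, abs_le]; exact this
  nlinarith [norm_nonneg (g s)]

lemma u_ii {u : ℝ → ℝ} (hu : u ∈ Adm UU) {a b : ℝ} (ha : 0 ≤ a)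
    (hb : 0 ≤ b) : IntervalIntegrable u volume a b := by
  simpa using bdd_ii hu (g := fun _ => 1) continuous_const ha hb

lemma ph_sol {u : ℝ → ℝ} (hu : u ∈ Adm UU) (x0 : ℝ) : IsSol ff u x0 (fun t => ph t x0 u) := by
  have hJii : ∀ t : ℝ, 0 ≤ t → IntervalIntegrable (fun s => Real.exp (-s) * u s) volume 0 t :=
    fun t ht => bdd_ii hu (by fun_prop) le_rfl ht
  have hcontJ : ContinuousOn (fun t => ∫ s in (0:ℝ)..t, Real.exp (-s) * u s) (Ici 0) := by
    intro t ht
    have ht' : (0:ℝ) ≤ t := ht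
    have h1 : ContinuousOn (fun t => ∫ s in (0:ℝ)..t, Real.exp (-s) * u s) (uIcc 0 (t + 1)) :=
      intervalIntegral.continuousOn_primitive_interval
        ((intervalIntegrable_iff_integrableOn_Icc_of_le (by linarith)).1
          (hJii (t + 1) (by linarith)) |> fun h => by rwa [uIcc_of_le (by linarith : (0:ℝ) ≤ t + 1)])
    have h2 : ContinuousWithinAt (fun t => ∫ s in (0:ℝ)..t, Real.exp (-s) * u s)
        (uIcc 0 (t + 1)) t := h1 t (by rw [uIcc_of_le (by linarith)]; exact ⟨ht', by linarith⟩)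
    refine h2.mono_of_mem_nhdsWithin ?_
    rw [uIcc_of_le (by linarith)]
    have : Icc 0 (t + 1) = Ici 0 ∩ Iic (t + 1) := by ext; simp
    rw [this]
    exact inter_mem self_mem_nhdsWithin (mem_nhdsWithin_of_mem_nhds (Iic_mem_nhds (by linarith)))
  have hcont : ContinuousOn (fun t => ph t x0 u) (Ici 0) := by
    unfold ph
    exact (Real.continuous_exp.continuousOn).mul (continuousOn_const.add hcontJ)
  refine ⟨hcont, fun t ht => ?_⟩
  have hii : IntervalIntegrable (fun s => ff (ph s x0 u) (u s)) volume 0 t := by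
    unfold ff
    refine IntervalIntegrable.add ?_ (u_ii hu le_rfl ht)
    refine ContinuousOn.intervalIntegrable (hcont.mono ?_)
    rw [uIcc_of_le ht]; exact fun s hs => hs.1
  refine ⟨hii, ?_⟩
  -- absolute continuity
  have hAC1 : AbsolutelyContinuousOnInterval (fun t => ∫ s in (0:ℝ)..t, Real.exp (-s) * u s) 0 t :=
    (hJii t ht).absolutelyContinuousOnInterval_intervalIntegral (by simp)
  have hAC2 : AbsolutelyContinuousOnInterval (fun t => x0 + ∫ s in (0:ℝ)..t, Real.exp (-s) * u s)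
      0 t := by
    have hc : AbsolutelyContinuousOnInterval (fun _ : ℝ => x0) 0 t :=
      (contDiff_const (c := x0) (n := 1)).contDiffOn.absolutelyContinuousOnInterval
    exact hc.add hAC1
  have hAC3 : AbsolutelyContinuousOnInterval Real.exp 0 t :=
    (Real.contDiff_exp (n := 1)).contDiffOn.absolutelyContinuousOnInterval
  have hAC : AbsolutelyContinuousOnInterval (fun t => ph t x0 u) 0 t := hAC3.fun_mul hAC2
  have h1 := hAC.integral_deriv_eq_sub
  have h2 : ph 0 x0 u = x0 := by simp [ph]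
  have h3 : ∫ s in (0:ℝ)..t, deriv (fun t => ph t x0 u) s = ∫ s in (0:ℝ)..t, ff (ph s x0 u) (u s) := by
    refine intervalIntegral.integral_congr_ae ?_
    filter_upwards [(hJii t ht).ae_hasDerivAt_integral] with s hs hs2
    have hs3 : s ∈ uIcc 0 t := uIoc_subset_uIcc hs2
    have h4 := hs hs3 0 (by simp)
    have h5 : HasDerivAt (fun t => ph t x0 u)
        (Real.exp s * (x0 + ∫ s in (0:ℝ)..s, Real.exp (-s) * u s) +
          Real.exp s * (Real.exp (-s) * u s)) s :=
      (Real.hasDerivAt_exp s).mul (h4.const_add x0)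
    rw [h5.deriv, ff, ph, ← mul_assoc, ← Real.exp_add, add_neg_cancel, Real.exp_zero, one_mul]
  rw [← h3, h1, h2]
  ring

lemma ph_unique {u : ℝ → ℝ} (hu : u ∈ Adm UU) (x0 : ℝ) (y : ℝ → ℝ) (hy : IsSol ff u x0 y)
    (t : ℝ) (ht : 0 ≤ t) : y t = ph t x0 u := by
  have hx := ph_sol hu x0
  set z : ℝ → ℝ := fun s => y s - ph s x0 u with hz
  have hzc : ContinuousOn z (Ici 0) := hy.1.sub hx.1
  have hzi : ∀ s, 0 ≤ s → z s = ∫ r in (0:ℝ)..s, z r := by
    intro s hs
    obtain ⟨a1, a2⟩ := hy.2 s hs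
    obtain ⟨b1, b2⟩ := hx.2 s hs
    simp only [hz]
    rw [a2]
    conv_lhs => rw [show ph s x0 u = _ from b2]
    rw [add_sub_add_left_eq_sub, ← intervalIntegral.integral_sub a1 b1]
    refine intervalIntegral.integral_congr fun r _ => ?_
    simp only [ff]; ring
  have hder : ∀ s ∈ Ico 0 t, HasDerivWithinAt z (z s) (Ici s) s := by
    intro s hs
    have hs0 : (0:ℝ) ≤ s := hs.1
    have h1 : HasDerivWithinAt (fun r => ∫ q in (0:ℝ)..r, z q) (z s) (Ici s) s := by
      refine intervalIntegral.integral_hasDerivWithinAt_right ?_ ?_ ?_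
      · refine ContinuousOn.intervalIntegrable (hzc.mono ?_)
        rw [uIcc_of_le hs0]; exact fun q hq => hq.1
      · refine ⟨Ici 0, ?_, ?_⟩
        · exact mem_nhdsWithin.2 ⟨Ioi (s - 1), isOpen_Ioi, by simp, fun q hq => hs0.trans (le_of_lt hq.2)⟩
        · exact (hzc.aestronglyMeasurable measurableSet_Ici)
      · exact (hzc s hs0).mono (fun q hq => hs0.trans (le_of_lt hq))
    refine h1.congr (fun r hr => hzi r (hs0.trans hr)) (hzi s hs0)
  have hg := norm_le_gronwallBound_of_norm_deriv_right_le (f := z) (f' := z) (δ := 0) (K := 1)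
    (ε := 0) (a := 0) (b := t) (hzc.mono fun q hq => hq.1) hder
    (by rw [hzi 0 le_rfl]; simp) (fun s _ => by simp) t ⟨ht, le_rfl⟩
  rw [gronwallBound_ε0] at hg
  simp only [zero_mul] at hg
  have : z t = 0 := norm_le_zero_iff.1 hg
  simp only [hz] at this
  linarith

lemma isCS : IsControlSystem ff UU ph where
  sol u hu x0 := ph_sol hu x0
  unique u hu x0 y hy t ht := ph_unique hu x0 y hy t ht
  cont u _ t _ := by unfold ph; fun_prop

lemma isKL : IsKL zt where
  cont := by unfold zt; fun_prop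
  zero s _ := by simp [zt]
  incr s _ := by
    intro a _ b _ hab
    exact mul_lt_mul_of_pos_right hab (Real.exp_pos _)
  decr r hr := by
    intro a _ b _ hab
    exact mul_lt_mul_of_pos_left (Real.exp_lt_exp.2 (by linarith)) hr
  lim r _ := by
    have h1 : Tendsto (fun s : ℝ => Real.exp (-s)) atTop (𝓝 0) :=
      Real.tendsto_exp_neg_atTop_nhds_zero
    simpa [zt] using h1.const_mul r

/-- The stabilizing open-loop control for the initial value `a`. -/
noncomputable def uc (a t : ℝ) : ℝ := if 0 ≤ t then -2 * a * Real.exp (-t) else 0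

lemma uc_mem {a : ℝ} (ha : a ∈ Icc (-(1/2) : ℝ) (1/2)) : uc a ∈ Adm UU := by
  refine ⟨?_, Eventually.of_forall fun t ht => ?_⟩
  · unfold uc
    exact Measurable.ite measurableSet_Ici (by fun_prop) measurable_const
  · rw [uc, if_pos ht]
    have h1 : 0 < Real.exp (-t) := Real.exp_pos _
    have h2 : Real.exp (-t) ≤ 1 := Real.exp_le_one_iff.2 (by linarith)
    obtain ⟨h3, h4⟩ := ha
    constructor <;> nlinarith

lemma ph_uc (a x t : ℝ) (ht : 0 ≤ t) :
    ph t x (uc a) = Real.exp t * (x - a) + a * Real.exp (-t) := by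
  have h1 : ∫ s in (0:ℝ)..t, Real.exp (-s) * uc a s = a * (Real.exp (-(2 * t)) - 1) := by
    have h2 : ∫ s in (0:ℝ)..t, Real.exp (-s) * uc a s =
        ∫ s in (0:ℝ)..t, -2 * a * Real.exp (-(2 * s)) := by
      refine intervalIntegral.integral_congr fun s hs => ?_
      rw [uIcc_of_le ht] at hs
      rw [uc, if_pos hs.1]
      have : Real.exp (-(2 * s)) = Real.exp (-s) * Real.exp (-s) := by
        rw [← Real.exp_add]; congr 1; ring
      rw [this]; ring
    rw [h2]
    have h3 : ∀ s ∈ uIcc 0 t, HasDerivAt (fun s => a * Real.exp (-(2 * s)))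
        (-2 * a * Real.exp (-(2 * s))) s := by
      intro s _
      have h4 : HasDerivAt (fun s : ℝ => -(2 * s)) (-(2 * 1)) s :=
        ((hasDerivAt_id s).const_mul 2).neg
      have := (h4.exp).const_mul a
      exact this.congr_deriv (by ring)
    rw [intervalIntegral.integral_eq_sub_of_hasDerivAt h3
      ((by fun_prop : Continuous fun s : ℝ => -2 * a * Real.exp (-(2 * s))).intervalIntegrable _ _)]
    simp
    ring
  rw [ph, h1]
  have : Real.exp (-(2 * t)) = Real.exp (-t) * Real.exp (-t) := by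
    rw [← Real.exp_add]; congr 1; ring
  rw [this]
  have h5 : Real.exp t * Real.exp (-t) = 1 := by rw [← Real.exp_add]; simp
  linear_combination (a * Real.exp (-t)) * h5

lemma infDist_zero (x : ℝ) : Metric.infDist x ({0} : Set ℝ) = |x| := by
  rw [Metric.infDist_singleton, dist_zero_right, Real.norm_eq_abs]

/-- The initial set. -/
def GG : Set ℝ := Icc (-(1/2)) (1/2)

lemma stab : IsStabilizable UU ph zt GG {0} := by
  intro x hx
  refine ⟨uc x, uc_mem hx, fun t ht => ?_⟩
  rw [infDist_zero, infDist_zero, ph_uc x x t ht, sub_self, mul_zero, zero_add, abs_mul,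
    abs_of_pos (Real.exp_pos _)]
  exact le_rfl

/-- Lower bound for the cardinality of spanning sets. -/
lemma card_lower {τ ε : ℝ} (hτ : 0 ≤ τ) (hε : 0 < ε) :
    ENNReal.ofReal (Real.exp (2 * τ) / (1 + 2 * ε)) ≤
      (minCard UU ph zt GG {0} τ ε 0 : ENNReal) := by
  -- it suffices to bound finite spanning sets
  have key : ∀ S ∈ Spanning UU ph zt GG {0} τ ε 0,
      ENNReal.ofReal (Real.exp (2 * τ) / (1 + 2 * ε)) ≤ ((S.encard : ℕ∞) : ENNReal) := by
    rintro S ⟨-, hS⟩
    rcases S.finite_or_infinite with hfin | hinf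
    swap
    · rw [hinf.encard_eq]; simp
    set ρ : ℝ := (1 + 2 * ε) * Real.exp (-(2 * τ)) with hρ
    have hρ0 : 0 < ρ := by positivity
    let G : (ℝ → ℝ) → Set ℝ := fun u => {x ∈ GG | |ph τ x u| ≤ (1 / 2 + ε) * Real.exp (-τ)}
    have hcov : GG ⊆ ⋃ u ∈ hfin.toFinset, G u := by
      intro x hx
      obtain ⟨u, huS, hu⟩ := hS x hx
      have h1 := hu τ ⟨hτ, le_rfl⟩
      rw [infDist_zero, infDist_zero, add_zero, zt] at h1
      have hx' : |x| ≤ 1 / 2 := abs_le.2 hx
      refine mem_biUnion (hfin.mem_toFinset.2 huS) ⟨hx, h1.trans ?_⟩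
      gcongr
    have hdiam : ∀ u, volume (G u) ≤ ENNReal.ofReal ρ := by
      intro u
      refine (Real.volume_le_diam _).trans ?_
      refine Metric.ediam_le_of_forall_dist_le fun x hx y hy => ?_
      have h1 : Real.exp τ * (x - y) = ph τ x u - ph τ y u := by simp only [ph]; ring
      have h2 : Real.exp τ * |x - y| ≤ (1 + 2 * ε) * Real.exp (-τ) := by
        have e2 : Real.exp τ * |x - y| = |ph τ x u - ph τ y u| := by
          rw [← h1, abs_mul, abs_of_pos (Real.exp_pos τ)]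
        rw [e2]
        refine (abs_sub _ _).trans ?_
        have := hx.2
        have := hy.2
        linarith
      rw [Real.dist_eq, hρ]
      have h3 : Real.exp (-τ) * (Real.exp τ * |x - y|) ≤
          Real.exp (-τ) * ((1 + 2 * ε) * Real.exp (-τ)) := by gcongr
      have h4 : Real.exp (-τ) * Real.exp τ = 1 := by rw [← Real.exp_add]; simp
      have h5 : Real.exp (-(2 * τ)) = Real.exp (-τ) * Real.exp (-τ) := by
        rw [← Real.exp_add]; congr 1; ring
      rw [h5]
      calc |x - y| = (Real.exp (-τ) * Real.exp τ) * |x - y| := by rw [h4, one_mul]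
        _ = Real.exp (-τ) * (Real.exp τ * |x - y|) := by ring
        _ ≤ _ := h3
        _ = _ := by ring
    have hvol : (1 : ENNReal) ≤ hfin.toFinset.card * ENNReal.ofReal ρ := by
      calc (1 : ENNReal) = volume GG := by
            rw [GG, Real.volume_Icc]; norm_num
        _ ≤ volume (⋃ u ∈ hfin.toFinset, G u) := measure_mono hcov
        _ ≤ ∑ u ∈ hfin.toFinset, volume (G u) := measure_biUnion_finset_le _ _
        _ ≤ ∑ _u ∈ hfin.toFinset, ENNReal.ofReal ρ := Finset.sum_le_sum fun u _ => hdiam u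
        _ = _ := by rw [Finset.sum_const, nsmul_eq_mul]
    rw [hfin.encard_eq_coe_toFinset_card]
    have h6 : (1 : ℝ) ≤ hfin.toFinset.card * ρ := by
      have e : (hfin.toFinset.card : ENNReal) * ENNReal.ofReal ρ =
          ENNReal.ofReal (hfin.toFinset.card * ρ) := by
        rw [ENNReal.ofReal_mul (p := (hfin.toFinset.card : ℝ)) (Nat.cast_nonneg _),
          ENNReal.ofReal_natCast]
      rw [e, ← ENNReal.ofReal_one, ENNReal.ofReal_le_ofReal_iff (by positivity)] at hvol
      exact hvol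
    have h7 : Real.exp (2 * τ) / (1 + 2 * ε) ≤ hfin.toFinset.card := by
      rw [div_le_iff₀ (by positivity)]
      have h8 : Real.exp (2 * τ) * Real.exp (-(2 * τ)) = 1 := by rw [← Real.exp_add]; simp
      calc Real.exp (2 * τ) = Real.exp (2 * τ) * 1 := by ring
        _ ≤ Real.exp (2 * τ) * (hfin.toFinset.card * ρ) := by gcongr
        _ = (Real.exp (2 * τ) * Real.exp (-(2 * τ))) * (hfin.toFinset.card * (1 + 2 * ε)) := by
          rw [hρ]; ring
        _ = _ := by rw [h8, one_mul]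
    calc ENNReal.ofReal (Real.exp (2 * τ) / (1 + 2 * ε)) ≤
          ENNReal.ofReal (hfin.toFinset.card : ℝ) := ENNReal.ofReal_le_ofReal h7
      _ = _ := by rw [ENNReal.ofReal_natCast]; rfl
  unfold minCard
  rcases (Set.encard '' Spanning UU ph zt GG {0} τ ε 0).eq_empty_or_nonempty with he | hne
  · rw [he, sInf_empty]; simp
  · obtain ⟨S, hS, hSe⟩ := csInf_mem hne
    rw [← hSe]
    exact key S hS

/-- Upper bound for the cardinality of practically spanning sets. -/
lemma card_upper {τ ε : ℝ} (hτ : 0 ≤ τ) (hε : 0 < ε) :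
    (minCard UU ph zt GG {0} τ ε ε : ENNReal) ≤
      ENNReal.ofReal ((1 / ε + 2) * Real.exp τ) := by
  set N : ℕ := ⌈Real.exp τ / ε⌉₊ with hN
  have hN0 : 0 < Real.exp τ / ε := by positivity
  have hNpos : 0 < N := Nat.ceil_pos.2 hN0
  have hN1 : (0:ℝ) < N := by exact_mod_cast hNpos
  let g : ℕ → ℝ := fun j => -(1/2) + j / N
  have hg : ∀ j ∈ Finset.range (N + 1), g j ∈ Icc (-(1/2) : ℝ) (1/2) := by
    intro j hj
    have hj' : (j : ℝ) ≤ N := by exact_mod_cast Nat.lt_succ_iff.1 (Finset.mem_range.1 hj)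
    have h1 : (j : ℝ) / N ≤ 1 := (div_le_one hN1).2 hj'
    have h2 : 0 ≤ (j : ℝ) / N := by positivity
    simp only [g]
    constructor <;> linarith
  set S : Set (ℝ → ℝ) := (fun j => uc (g j)) '' (Finset.range (N + 1) : Set ℕ) with hS
  have hmem : S ∈ Spanning UU ph zt GG {0} τ ε ε := by
    refine ⟨?_, fun x hx => ?_⟩
    · rintro _ ⟨j, hj, rfl⟩
      exact uc_mem (hg j hj)
    · obtain ⟨hx1, hx2⟩ := hx
      set j : ℕ := ⌊(x + 1/2) * N⌋₊ with hj
      have hx0 : 0 ≤ (x + 1/2) * N := mul_nonneg (by linarith) hN1.le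
      have hj1 : (j : ℝ) ≤ (x + 1/2) * N := Nat.floor_le hx0
      have hj2 : (x + 1/2) * N < j + 1 := Nat.lt_floor_add_one _
      have hjN : j ≤ N := by
        have : (j : ℝ) ≤ N := by nlinarith
        exact_mod_cast this
      have hjr : j ∈ Finset.range (N + 1) := Finset.mem_range.2 (by omega)
      refine ⟨uc (g j), ⟨j, hjr, rfl⟩, fun t ht => ?_⟩
      rw [infDist_zero, infDist_zero, ph_uc _ _ _ ht.1, zt]
      have e1 : x - g j = ((x + 1/2) * N - j) / N := by
        simp only [g]; field_simp; ring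
      have d1 : |x - g j| ≤ 1 / N := by
        rw [e1, abs_div, abs_of_pos hN1]
        gcongr
        rw [abs_of_nonneg (by linarith)]
        linarith
      have d2 : 1 / (N : ℝ) ≤ ε * Real.exp (-τ) := by
        rw [div_le_iff₀ hN1]
        have h1 : Real.exp τ / ε ≤ N := Nat.le_ceil _
        have h4 : Real.exp (-τ) * Real.exp τ = 1 := by rw [← Real.exp_add]; simp
        calc (1:ℝ) = ε * Real.exp (-τ) * (Real.exp τ / ε) := by
              field_simp; linarith
          _ ≤ ε * Real.exp (-τ) * N := by gcongr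
      have d3 : |x - g j| ≤ ε * Real.exp (-τ) := d1.trans d2
      have d4 : Real.exp (-τ) ≤ 1 := Real.exp_le_one_iff.2 (by linarith)
      have d5 : |x - g j| ≤ ε := d3.trans (by nlinarith)
      have d6 : |g j| ≤ |x| + ε := by
        have : |g j| ≤ |x| + |x - g j| := by
          have := abs_sub_abs_le_abs_sub (g j) x
          rw [abs_sub_comm (g j) x] at this
          linarith
        linarith
      have d7 : Real.exp t * |x - g j| ≤ ε := by
        have h4 : Real.exp (-τ) * Real.exp τ = 1 := by rw [← Real.exp_add]; simp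
        calc Real.exp t * |x - g j| ≤ Real.exp τ * (ε * Real.exp (-τ)) := by
              gcongr
              exact ht.2
          _ = ε * (Real.exp (-τ) * Real.exp τ) := by ring
          _ = ε := by rw [h4, mul_one]
      refine (abs_add_le _ _).trans ?_
      rw [abs_mul, abs_mul, abs_of_pos (Real.exp_pos t), abs_of_pos (Real.exp_pos (-t))]
      have d8 : |g j| * Real.exp (-t) ≤ (|x| + ε) * Real.exp (-t) := by gcongr
      linarith
  have hle : minCard UU ph zt GG {0} τ ε ε ≤ ((N + 1 : ℕ) : ℕ∞) := by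
    refine (sInf_le (mem_image_of_mem _ hmem)).trans ?_
    refine (Set.encard_image_le _ _).trans ?_
    rw [Set.encard_coe_eq_coe_finsetCard, Finset.card_range]
  calc (minCard UU ph zt GG {0} τ ε ε : ENNReal) ≤ (((N + 1 : ℕ) : ℕ∞) : ENNReal) := by
        exact_mod_cast hle
    _ = ENNReal.ofReal ((N + 1 : ℕ) : ℝ) := by rw [ENNReal.ofReal_natCast]; rfl
    _ ≤ _ := by
      apply ENNReal.ofReal_le_ofReal
      push_cast
      have h1 : (N : ℝ) < Real.exp τ / ε + 1 := Nat.ceil_lt_add_one hN0.le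
      have h2 : 1 ≤ Real.exp τ := Real.one_le_exp hτ
      have h3 : Real.exp τ / ε = 1 / ε * Real.exp τ := by ring
      nlinarith

lemma rate_ge (ε : ℝ) (hε : 0 < ε) : (2 : EReal) ≤ rate UU ph zt GG {0} ε 0 := by
  have hlim : Tendsto (fun τ : ℝ => ((2 - Real.log (1 + 2 * ε) / τ : ℝ) : EReal)) atTop
      (𝓝 ((2 : ℝ) : EReal)) := by
    refine (continuous_coe_real_ereal.tendsto _).comp ?_
    have h1 : Tendsto (fun τ : ℝ => Real.log (1 + 2 * ε) / τ) atTop (𝓝 0) :=
      tendsto_const_nhds.div_atTop tendsto_id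
    simpa using h1.const_sub 2
  have h2 : ((2 : ℝ) : EReal) = 2 := rfl
  rw [← h2, ← hlim.limsup_eq]
  refine limsup_le_limsup ?_
  filter_upwards [eventually_gt_atTop 0] with τ hτ
  have h3 := card_lower hτ.le hε
  have h4 := ENNReal.log_monotone h3
  rw [ENNReal.log_ofReal_of_pos (by positivity)] at h4
  have h5 : Real.log (Real.exp (2 * τ) / (1 + 2 * ε)) = 2 * τ - Real.log (1 + 2 * ε) := by
    rw [Real.log_div (Real.exp_pos _).ne' (by positivity), Real.log_exp]
  rw [h5] at h4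
  have h6 := EReal.div_le_div_right_of_nonneg (c := (τ : EReal)) (by exact_mod_cast hτ.le) h4
  refine le_trans (le_of_eq ?_) h6
  rw [← EReal.coe_div]
  congr 1
  field_simp

lemma rate_le (ε : ℝ) (hε : 0 < ε) : rate UU ph zt GG {0} ε ε ≤ (1 : EReal) := by
  have hlim : Tendsto (fun τ : ℝ => ((1 + Real.log (1 / ε + 2) / τ : ℝ) : EReal)) atTop
      (𝓝 ((1 : ℝ) : EReal)) := by
    refine (continuous_coe_real_ereal.tendsto _).comp ?_
    have h1 : Tendsto (fun τ : ℝ => Real.log (1 / ε + 2) / τ) atTop (𝓝 0) :=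
      tendsto_const_nhds.div_atTop tendsto_id
    simpa using h1.const_add 1
  have h2 : ((1 : ℝ) : EReal) = 1 := rfl
  rw [← h2, ← hlim.limsup_eq]
  refine limsup_le_limsup ?_
  filter_upwards [eventually_gt_atTop 0] with τ hτ
  have h3 := card_upper hτ.le hε
  have h4 := ENNReal.log_monotone h3
  rw [ENNReal.log_ofReal_of_pos (by positivity)] at h4
  have h5 : Real.log ((1 / ε + 2) * Real.exp τ) = τ + Real.log (1 / ε + 2) := by
    rw [Real.log_mul (by positivity) (Real.exp_pos _).ne', Real.log_exp]; ring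
  rw [h5] at h4
  have h6 := EReal.div_le_div_right_of_nonneg (c := (τ : EReal)) (by exact_mod_cast hτ.le) h4
  refine le_trans h6 (le_of_eq ?_)
  rw [← EReal.coe_div]
  congr 1
  field_simp

lemma rate_anti (δ : ℝ → ℝ) (hδ : Monotone δ) :
    Antitone fun ε : ℝ => rate UU ph zt GG {0} ε (δ ε) := by
  intro ε₁ ε₂ h12
  refine limsup_le_limsup ?_
  filter_upwards [eventually_gt_atTop 0] with τ hτ
  refine EReal.div_le_div_right_of_nonneg (by exact_mod_cast hτ.le) (ENNReal.log_monotone ?_)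
  have : minCard UU ph zt GG {0} τ ε₂ (δ ε₂) ≤ minCard UU ph zt GG {0} τ ε₁ (δ ε₁) := by
    refine sInf_le_sInf (image_mono ?_)
    rintro S ⟨hS1, hS2⟩
    refine ⟨hS1, fun x hx => ?_⟩
    obtain ⟨u, hu, h⟩ := hS2 x hx
    refine ⟨u, hu, fun t ht => (h t ht).trans ?_⟩
    have := hδ h12
    unfold zt
    gcongr
  exact_mod_cast this

lemma anti_lim {h : ℝ → EReal} (hh : Antitone h) : Tendsto h (𝓝[>] 0) (𝓝 (⨆ ε ∈ Ioi (0:ℝ), h ε)) := by
  have h1 : Monotone (fun ε => OrderDual.toDual (h ε)) := fun a b hab => hh hab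
  have h2 := h1.tendsto_nhdsGT 0
  have h3 : sInf ((fun ε => OrderDual.toDual (h ε)) '' Ioi 0) =
      OrderDual.toDual (⨆ ε ∈ Ioi (0:ℝ), h ε) := by
    rw [sInf_image]
    rfl
  rw [h3] at h2
  exact h2

/-- **The practical stabilization entropy can be strictly smaller than the stabilization entropy.**
There are a control system on `ℝ` with existence, uniqueness and continuous dependence of solutions,
a compact control range `U`, compact sets `Γ`, `Λ` and a `KL`-function for which the system is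
stabilizable, the practical stabilization entropy is at most `1` and the stabilization entropy is at
least `2`. -/
theorem result : ∃ (f : ℝ → ℝ → ℝ) (U Γ Λ : Set ℝ) (ζ : ℝ → ℝ → ℝ) (φ : ℝ → ℝ → (ℝ → ℝ) → ℝ),
    IsCompact U ∧ IsCompact Γ ∧ IsCompact Λ ∧ Γ.Nonempty ∧ Λ.Nonempty ∧ IsKL ζ ∧
    IsControlSystem f U φ ∧ IsStabilizable U φ ζ Γ Λ ∧
    ∃ hs hps : EReal, IsStabilizationEntropy U φ ζ Γ Λ hs ∧ IsPracticalEntropy U φ ζ Γ Λ hps ∧
      hps ≤ 1 ∧ 2 ≤ hs ∧ hps < hs := by
  refine ⟨ff, UU, GG, {0}, zt, ph, isCompact_Icc, isCompact_Icc, isCompact_singleton,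
    ⟨0, by norm_num [GG]⟩, ⟨0, rfl⟩, isKL, isCS, stab, _, _,
    anti_lim (rate_anti (fun _ => 0) monotone_const), anti_lim (rate_anti id monotone_id), ?_⟩
  have h1 : (⨆ ε ∈ Ioi (0:ℝ), rate UU ph zt GG {0} ε (id ε)) ≤ 1 :=
    iSup₂_le fun ε hε => rate_le ε hε
  have h2 : 2 ≤ ⨆ ε ∈ Ioi (0:ℝ), rate UU ph zt GG {0} ε 0 :=
    (rate_ge 1 one_pos).trans (le_iSup₂ (f := fun ε (_ : ε ∈ Ioi (0:ℝ)) =>
      rate UU ph zt GG {0} ε 0) 1 (mem_Ioi.2 one_pos))
  refine ⟨h1, h2, lt_of_le_of_lt h1 (lt_of_lt_of_le ?_ h2)⟩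
  exact_mod_cast (by norm_num : (1:ℝ) < 2)

end Pool.Agent.Results.MP_395e41_an.StrictInequality
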